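import Pool.Agent.V1142.EQ.Emb

/-!
# The Sato-Tate law over `F` is the Sato-Tate law on average over linearly disjoint extensions of `F`

`F` is a number field, `G` a compact group with a measure `μ` (for the problem: `G = ST_A`, `A` an abelian
surface over `F`, with its Haar measure) and `x_v ∈ G` an element of the class `s(v)` of the place `v` of
`F` (any element at the finitely many exceptional places).  `K_0, K_1, ...` are finite extensions of `F`
inside the algebraic closure of `F`, different from `F`, with `[K_i K_j : F] = [K_i : F] [K_j : F]` for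
`i ≠ j`.  They need not be Galois, and their degrees need not be bounded.  For example: infinitely many
quadratic extensions of `F`.

The place `v` of `F`, with Frobenius element `φ_v`, has as many places of `K` of relative degree one above
it as there are `F`-embeddings of `K` in the algebraic closure which are fixed by `φ_v`, if `v` is
unramified in `K`; the places of `K` of higher relative degree have density zero.  So `avgOver φ K a N` is,
up to `o(1)`, the average of the bounded function `a` over the places of `K` of norm at most `N`.  The class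
of `A` over `K` at a place of relative degree one over `v` is the image of `x_v`, and the Sato-Tate group of
`A` over `K_i` is `ST_A` if `K_i` is linearly disjoint from the field over which the Sato-Tate group becomes
connected; this excludes only finitely many of the `K_i`.

`rankOf K` is the number of orbits of the absolute Galois group of `F` on the pairs of `F`-embeddings of
`K`, at least `2` for `K ≠ F` and at most `[K : F]`; it is `[K : F]` if `K / F` is Galois, and `2` if the Galois
group of the normal closure is doubly transitive, for example if it is a symmetric group of any degree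
`[K : F]`.
-/

set_option autoImplicit false

namespace Pool.Agent.Results.MP_6dc561_nt.AverageOverExtensions

open NumberField IsDedekindDomain Filter Topology MeasureTheory
open Pool.Agent.V1142.EQ (fixedEmbeddings rankOf avg avgOver)

section

variable {F : Type} [Field F] [NumberField F]

/-- `σ` is a Frobenius element at `v`: for some maximal ideal `Q` above `v` of the ring of all algebraic
integers of the algebraic closure of `F`, `σ x ≡ x ^ N(v)` modulo `Q` for all `x`. -/
def IsFrobenius (v : HeightOneSpectrum (𝓞 F)) (σ : Gal(AlgebraicClosure F/F)) : Prop :=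
  ∃ Q : Ideal (𝓞 (AlgebraicClosure F)), Q.IsMaximal ∧
    Q.comap (algebraMap (𝓞 F) (𝓞 (AlgebraicClosure F))) = v.asIdeal ∧
    ∀ x : 𝓞 (AlgebraicClosure F), σ • x - x ^ Ideal.absNorm v.asIdeal ∈ Q

variable {G : Type} [Group G] [TopologicalSpace G] [MeasurableSpace G]

/-- The Sato-Tate law over `F`: for each continuous class function `f` the average of `f (x v)` over the
places of `F` of norm at most `N` tends to the integral of `f`. -/
def SatoTate (x : HeightOneSpectrum (𝓞 F) → G) (μ : Measure G) : Prop :=
  ∀ f : G → ℝ, Continuous f → (∀ g h, f (h * g * h⁻¹) = f g) →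
    Tendsto (avg fun v => f (x v)) atTop (𝓝 (∫ g, f g ∂μ))

/-- The Sato-Tate law over `K`: for each continuous class function `f` the average of `f (x v)` over the
places of `K` of relative degree one above the places `v` of `F` of norm at most `N` tends to the integral
of `f`. -/
def SatoTateOver (φ : HeightOneSpectrum (𝓞 F) → Gal(AlgebraicClosure F/F))
    (K : IntermediateField F (AlgebraicClosure F)) (x : HeightOneSpectrum (𝓞 F) → G)
    (μ : Measure G) : Prop :=
  ∀ f : G → ℝ, Continuous f → (∀ g h, f (h * g * h⁻¹) = f g) →
    Tendsto (avgOver φ K fun v => f (x v)) atTop (𝓝 (∫ g, f g ∂μ))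

/-- The Sato-Tate law on average over the `K i`: for each continuous class function `f` and `δ > 0`, for
all large `m`, for all large `N` (depending on `m`), the mean over `i < m`, with the weights
`1 / (rankOf (K i) - 1)`, of the distance of the average of `f` over `K i` at the scale `N` from the integral
of `f` is at most `δ`. -/
def SatoTateOnAverage (φ : HeightOneSpectrum (𝓞 F) → Gal(AlgebraicClosure F/F))
    (K : ℕ → IntermediateField F (AlgebraicClosure F)) (x : HeightOneSpectrum (𝓞 F) → G)
    (μ : Measure G) : Prop :=
  ∀ f : G → ℝ, Continuous f → (∀ g h, f (h * g * h⁻¹) = f g) → ∀ δ : ℝ, 0 < δ →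
    ∀ᶠ m in atTop, ∀ᶠ N in atTop,
      (∑ i ∈ Finset.range m, 1 / ((rankOf (K i) : ℝ) - 1) *
        |avgOver φ (K i) (fun v => f (x v)) N - ∫ g, f g ∂μ|) /
        (∑ i ∈ Finset.range m, 1 / ((rankOf (K i) : ℝ) - 1)) ≤ δ

end

/-- Let `F` be a number field and `K_0, K_1, ...` finite extensions of `F`, all different from `F`, with
`[K_i K_j : F] = [K_i : F] [K_j : F]` for `i ≠ j`.

1. (Unconditional.)  For each finite set `J` of indices and `ε > 0`, for all large `N`, for all functions `a`
on the places of `F` with `|a| ≤ 1`: the sum over `i ∈ J` of the squares of the differences between the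
average of `a` over `K_i` and over `F` at the scale `N`, divided by `rankOf (K_i) - 1`, is at most `1 + ε`.

2. If infinitely many of the `rankOf (K_i)` are bounded by one number `D` (for example if the degrees are
bounded, or if the extensions are doubly transitive), then `∑ 1 / (rankOf (K_i) - 1)` diverges.

3. If `∑ 1 / (rankOf (K_i) - 1)` diverges then, for all compact groups `G`, measures `μ` on `G` and `x_v ∈ G`,
the Sato-Tate law over `F` is equivalent to the Sato-Tate law on average over the `K_i`; in particular the
Sato-Tate law over `F` holds if it holds over all but finitely many of the `K_i`. -/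
theorem result (F : Type) [Field F] [NumberField F]
    (φ : HeightOneSpectrum (𝓞 F) → Gal(AlgebraicClosure F/F)) (hφ : ∀ v, IsFrobenius v (φ v))
    (K : ℕ → IntermediateField F (AlgebraicClosure F)) (hfin : ∀ i, FiniteDimensional F (K i))
    (hne : ∀ i, K i ≠ ⊥)
    (hdisj : ∀ i j, i ≠ j →
      Module.finrank F (K i ⊔ K j : IntermediateField F (AlgebraicClosure F)) =
        Module.finrank F (K i) * Module.finrank F (K j)) :
    (∀ (J : Finset ℕ) (ε : ℝ), 0 < ε → ∀ᶠ N in atTop,
      ∀ a : HeightOneSpectrum (𝓞 F) → ℝ, (∀ v, |a v| ≤ 1) →
        ∑ i ∈ J, (avgOver φ (K i) a N - avg a N) ^ 2 / ((rankOf (K i) : ℝ) - 1) ≤ 1 + ε) ∧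
    (∀ D : ℕ, (∃ᶠ i in atTop, rankOf (K i) ≤ D) →
      ¬ Summable fun i => 1 / ((rankOf (K i) : ℝ) - 1)) ∧
    ((¬ Summable fun i => 1 / ((rankOf (K i) : ℝ) - 1)) →
      ∀ (G : Type) [Group G] [TopologicalSpace G] [CompactSpace G] [MeasurableSpace G]
        (μ : Measure G) (x : HeightOneSpectrum (𝓞 F) → G),
        (SatoTate x μ ↔ SatoTateOnAverage φ K x μ) ∧
        ((∀ᶠ i in atTop, SatoTateOver φ (K i) x μ) → SatoTate x μ)) := by
  refine ⟨fun J ε hε => Pool.Agent.V1142.EQ.bessel' φ hφ K hfin hne hdisj J ε hε,
    fun D h => Pool.Agent.V1142.EQ.not_summable' K hfin hne D h, fun hs G _ _ _ _ μ x => ⟨?_, ?_⟩⟩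
  · have key : ∀ f : G → ℝ, Continuous f → ∃ C : ℝ, ∀ v, |f (x v)| ≤ C := by
      intro f hf
      obtain ⟨C, hC⟩ := isCompact_univ.exists_bound_of_continuousOn hf.continuousOn
      exact ⟨C, fun v => hC _ trivial⟩
    constructor
    · intro h f hf hc
      obtain ⟨C, hC⟩ := key f hf
      exact (Pool.Agent.V1142.EQ.equivalence' φ hφ K hfin hne hdisj hs _ C hC _).1 (h f hf hc)
    · intro h f hf hc
      obtain ⟨C, hC⟩ := key f hf
      exact (Pool.Agent.V1142.EQ.equivalence' φ hφ K hfin hne hdisj hs _ C hC _).2 (h f hf hc)
  · intro h f hf hc
    obtain ⟨C, hC⟩ := isCompact_univ.exists_bound_of_continuousOn hf.continuousOn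
    refine Pool.Agent.V1142.EQ.descent' φ hφ K hfin hne hdisj hs _ C (fun v => hC _ trivial) _ ?_
    filter_upwards [h] with i hi
    exact hi f hf hc

end Pool.Agent.Results.MP_6dc561_nt.AverageOverExtensions
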