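import Pool.Agent.Y57.FD.Tup0
import Pool.Agent.V11210.G2.Mean

/-!
# Joint moments of the coefficients `a_1(p)` and `a_2(p)` of the normalized Euler factors of the Jacobians of almost all curves of
genus `2` whose coefficients arise from arbitrary integers by changing a few digits: square-root error, over arbitrary families of
weights

The local means are computed by means of the independence of the values of a random monic polynomial of degree `5` at points of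
`F_p` and pairs of conjugate points of `F_{p^2}`; the main terms are the joint moments of the coefficients `a_1`, `a_2` of the
characteristic polynomial of a random matrix in `USp(4)`.
-/

set_option autoImplicit false

namespace Pool.Agent.Results.MP_6dc561_nt.GenusTwoJointMoments

open Finset

/-- The number of the solutions of `Y ^ 2 = X ^ 5 + m 4 X ^ 4 + ... + m 1 X + m 0` in the field with `p` elements. -/
noncomputable def points₁ (p : ℕ) (m : Fin 5 → ℕ) : ℕ :=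
  Nat.card {P : ZMod p × ZMod p // P.2 ^ 2 = P.1 ^ 5 + ∑ i, (m i : ZMod p) * P.1 ^ (i : ℕ)}

open Classical in
/-- The number of the solutions of `Y ^ 2 = X ^ 5 + m 4 X ^ 4 + ... + m 1 X + m 0` in the field with `p ^ 2` elements. -/
noncomputable def points₂ (p : ℕ) (m : Fin 5 → ℕ) : ℕ :=
  if h : p.Prime then
    haveI : Fact p.Prime := ⟨h⟩
    Nat.card {P : GaloisField p 2 × GaloisField p 2 // P.2 ^ 2 = P.1 ^ 5 + ∑ i, (m i : GaloisField p 2) * P.1 ^ (i : ℕ)}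
  else 0

/-- `p` is odd and `X ^ 5 + m 4 X ^ 4 + ... + m 0` is separable modulo `p`, so that the curve of genus `2` with this equation is
smooth modulo `p`. -/
def Smooth (p : ℕ) (m : Fin 5 → ℕ) : Prop :=
  p ≠ 2 ∧ (Polynomial.X ^ 5 + ∑ i, Polynomial.C (m i : ZMod p) * Polynomial.X ^ (i : ℕ)).Separable

open Classical in
/-- The coefficient `a_1` of the normalized Euler factor `L_p(T / p ^ (1 / 2)) = 1 + a_1 T + a_2 T ^ 2 + a_1 T ^ 3 + T ^ 4` of the
Jacobian of the curve `C : Y ^ 2 = X ^ 5 + m 4 X ^ 4 + ... + m 0`: the number `#C(F_p) - (p + 1)` divided by `p ^ (1 / 2)` (there is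
one point at infinity, so that `#C(F_p) = points₁ p m + 1`), and `0` if the curve is not smooth modulo `p`. -/
noncomputable def a₁ (p : ℕ) (m : Fin 5 → ℕ) : ℝ :=
  if Smooth p m then (((points₁ p m : ℝ) + 1) - ((p : ℝ) + 1)) / Real.sqrt p else 0

open Classical in
/-- The coefficient `a_2` of the normalized Euler factor `L_p(T / p ^ (1 / 2)) = 1 + a_1 T + a_2 T ^ 2 + a_1 T ^ 3 + T ^ 4`:
the number `((#C(F_p) - (p + 1)) ^ 2 + #C(F_{p ^ 2}) - (p ^ 2 + 1)) / (2 p)` (where `#C(F_{p ^ 2}) = points₂ p m + 1`), and `0` if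
the curve is not smooth modulo `p`. -/
noncomputable def a₂ (p : ℕ) (m : Fin 5 → ℕ) : ℝ :=
  if Smooth p m then
    ((((points₁ p m : ℝ) + 1) - ((p : ℝ) + 1)) ^ 2 + (((points₂ p m : ℝ) + 1) - ((p : ℝ) ^ 2 + 1))) / (2 * p)
  else 0

/-- The mean of `a_1 ^ i a_2 ^ j` over the characteristic polynomials `1 + a_1 T + a_2 T ^ 2 + a_1 T ^ 3 + T ^ 4` of the matrices
in `USp(4)` (for the pairs `(i, j)` used below). -/
def moment : ℕ → ℕ → ℝ
  | 0, 0 => 1
  | 2, 0 => 1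
  | 4, 0 => 3
  | 6, 0 => 14
  | 0, 1 => 1
  | 2, 1 => 2
  | 0, 2 => 2
  | _, _ => 0

/-- For all weights in `W` and all pairs `(i, j)` with `i + 2 j ≤ 5` or `i ≤ 7`, `j = 0` the weighted mean of `a_1(p) ^ i a_2(p) ^ j`
over the first `n` primes `p_0 = 2, p_1, ..., p_(n-1)` differs from its expected value by at most
`(max 1 (∑ w k ^ 2)) ^ (1 / 2) n ^ δ`. -/
def Moments (δ : ℝ) (W : Set (ℕ → ℝ)) (n : ℕ) (m : Fin 5 → ℕ) : Prop :=
  ∀ w ∈ W, ∀ i j : ℕ, (i + 2 * j ≤ 5 ∨ (i ≤ 7 ∧ j = 0)) →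
    |∑ k ∈ range n, w k * (a₁ (Nat.nth Nat.Prime k) m ^ i * a₂ (Nat.nth Nat.Prime k) m ^ j) -
      moment i j * ∑ k ∈ range n, w k| ≤ Real.sqrt (max 1 (∑ k ∈ range n, w k ^ 2)) * (n : ℝ) ^ δ

/-- The digit number `i` (counted from the right, beginning with `0`) of `n` in base `b`. -/
def digit (b i n : ℕ) : ℕ := n / b ^ i % b

/-- The number which arises from the number `N` with at most `K` digits in base `b`, if for every `i ∈ S`
the digit number `i` is replaced by `f i`. -/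
def change (b K N : ℕ) (f : ℕ → ℕ) (S : Finset ℕ) : ℕ :=
  ∑ i ∈ range K, (if i ∈ S then f i else digit b i N) * b ^ i

open Classical in
/-- The number of the choices of `r l` of `K l` positions for all `l` for which the tuple of the numbers obtained by
changing the digits of the `N l` at the chosen positions (according to `f l`) does not have the property `E`. -/
noncomputable def exceptions {d : ℕ} (b : ℕ) (K r N : Fin d → ℕ) (f : Fin d → ℕ → ℕ) (E : (Fin d → ℕ) → Prop) : ℕ :=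
  ((Fintype.piFinset (fun l => powersetCard (r l) (range (K l)))).filter
    (fun S => ¬ E (fun l => change b (K l) (N l) (f l) (S l)))).card

lemma exc_eq {d : ℕ} (b : ℕ) (K r N : Fin d → ℕ) (f : Fin d → ℕ → ℕ) (E : (Fin d → ℕ) → Prop) :
    exceptions b K r N f E = Pool.Agent.Y57.FD.exceptions b K r N f E := rfl

lemma cond_eq (i j : ℕ) (h : i + 2 * j ≤ 5 ∨ (i ≤ 7 ∧ j = 0)) :
    (j = 0 ∧ i ≤ 2 * 2 + 3) ∨ (j = 1 ∧ i + 2 ≤ 2 * 2 + 1) ∨ (j = 2 ∧ i + 4 ≤ 2 * 2 + 1) := by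
  omega

lemma moment_eq (i j : ℕ) (h : i + 2 * j ≤ 5 ∨ (i ≤ 7 ∧ j = 0)) : moment i j = Pool.Agent.V11210.G2.mm 2 i j := by
  have hj : j ≤ 2 := by omega
  have hi : i ≤ 7 := by omega
  unfold Pool.Agent.V11210.G2.mm Pool.Agent.Y57.FD.Mom.usp Pool.Agent.Y57.FD.Mom.normal
  interval_cases j <;> interval_cases i <;> first
    | omega
    | (simp [moment, Nat.doubleFactorial, Nat.even_iff]; done)
    | (simp [moment, Nat.doubleFactorial, Nat.even_iff]; norm_num)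

lemma card_affine {F : Type} [Field F] [Fintype F] [DecidableEq F] (hF : ringChar F ≠ 2) (f : F → F) :
    (Nat.card {P : F × F // P.2 ^ 2 = f P.1} : ℝ) = (Fintype.card F : ℝ) + ∑ x : F, (quadraticChar F (f x) : ℝ) := by
  classical
  have h1 : Nat.card {P : F × F // P.2 ^ 2 = f P.1} = ∑ x : F, Nat.card {y : F // y ^ 2 = f x} := by
    rw [← Nat.card_sigma]
    refine Nat.card_congr ⟨fun P => ⟨P.1.1, ⟨P.1.2, P.2⟩⟩, fun P => ⟨(P.1, P.2.1), P.2.2⟩, fun _ => rfl, fun _ => rfl⟩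
  have h2 : ∀ x : F, ((Nat.card {y : F // y ^ 2 = f x} : ℕ) : ℤ) = quadraticChar F (f x) + 1 := by
    intro x
    rw [← quadraticChar_card_sqrts hF (f x)]
    congr 1
    rw [Nat.card_eq_fintype_card, Fintype.card_subtype]
    congr 1
    ext y
    simp
  rw [h1]
  push_cast
  have h3 : ∀ x : F, ((Nat.card {y : F // y ^ 2 = f x} : ℕ) : ℝ) = (quadraticChar F (f x) : ℝ) + 1 := by
    intro x
    have := h2 x
    exact_mod_cast this
  rw [sum_congr rfl (fun x _ => h3 x), sum_add_distrib, sum_const, card_univ, nsmul_eq_mul, mul_one]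
  ring

lemma pol_eq (p : ℕ) [Fact p.Prime] (m : Fin 5 → ℕ) : (Pool.Agent.Y57.FD.HM.pol p (D := 2 * 2 + 1) (fun i => ((m i : ℕ) : ZMod p))) =
    Polynomial.X ^ 5 + ∑ i, Polynomial.C (m i : ZMod p) * Polynomial.X ^ (i : ℕ) := rfl

lemma points₁_eq (p : ℕ) [Fact p.Prime] (h2 : p ≠ 2) (m : Fin 5 → ℕ) :
    (points₁ p m : ℝ) = (p : ℝ) + ∑ x : ZMod p, (quadraticChar (ZMod p)
      (Pool.Agent.Y57.FD.Mom.val (ZMod p) (2 * 2 + 1) (fun i => ((m i : ℕ) : ZMod p)) x) : ℝ) := by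
  unfold points₁
  rw [card_affine (Pool.Agent.V11210.G2.ringChar_zmod p h2) (fun x => x ^ 5 + ∑ i, (m i : ZMod p) * x ^ (i : ℕ)), ZMod.card]
  rfl

lemma points₂_eq (p : ℕ) [hp : Fact p.Prime] (h2 : p ≠ 2) (m : Fin 5 → ℕ) :
    (points₂ p m : ℝ) = (p : ℝ) ^ 2 + Pool.Agent.V11210.G2.SG p (D := 2 * 2 + 1) (fun i => ((m i : ℕ) : ZMod p)) := by
  classical
  letI : Fintype (GaloisField p 2) := Fintype.ofFinite _
  unfold points₂
  rw [dif_pos hp.out, card_affine (Pool.Agent.V11210.G2.charL (ZMod p) (GaloisField p 2) (Pool.Agent.V11210.G2.ringChar_zmod p h2))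
    (fun x : GaloisField p 2 => x ^ 5 + ∑ i, (m i : GaloisField p 2) * x ^ (i : ℕ)), ← Nat.card_eq_fintype_card,
    GaloisField.card p 2 (by norm_num)]
  push_cast
  congr 1

lemma a₁_eq (p : ℕ) (hp : p.Prime) (m : Fin 5 → ℕ) : a₁ p m = Pool.Agent.Y57.FD.HM.tr 2 p m := by
  classical
  haveI : Fact p.Prime := ⟨hp⟩
  unfold a₁ Pool.Agent.Y57.FD.HM.tr
  by_cases h2 : p = 2
  · rw [if_neg (fun h => h.1 h2), dif_neg (fun h => h.2 h2)]
  · rw [dif_pos ⟨hp, h2⟩]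
    by_cases h3 : (Pool.Agent.Y57.FD.HM.pol p (D := 2 * 2 + 1) (fun i => ((m i : ℕ) : ZMod p))).Separable
    · have h4 : Smooth p m := ⟨h2, by rw [pol_eq] at h3; exact h3⟩
      rw [if_pos h4, if_pos h3, points₁_eq p h2, ZMod.card]
      congr 1
      ring
    · have h4 : ¬ Smooth p m := fun h => h3 (by rw [pol_eq]; exact h.2)
      rw [if_neg h4, if_neg h3]

lemma a₂_eq (p : ℕ) (hp : p.Prime) (m : Fin 5 → ℕ) : a₂ p m = Pool.Agent.V11210.G2.A2 2 p m := by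
  classical
  haveI : Fact p.Prime := ⟨hp⟩
  have hp0 : (0 : ℝ) < p := by exact_mod_cast hp.pos
  have e1 := a₁_eq p hp m
  unfold a₂ Pool.Agent.V11210.G2.A2
  by_cases h2 : p = 2
  · rw [if_neg (fun h => h.1 h2), dif_neg (fun h => h.2 h2)]
  · rw [dif_pos ⟨hp, h2⟩]
    by_cases h3 : (Pool.Agent.Y57.FD.HM.pol p (D := 2 * 2 + 1) (fun i => ((m i : ℕ) : ZMod p))).Separable
    · have h4 : Smooth p m := ⟨h2, by rw [pol_eq] at h3; exact h3⟩
      rw [if_pos h4, if_pos h3, points₂_eq p h2, ← e1]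
      unfold a₁
      rw [if_pos h4, div_pow, Real.sq_sqrt hp0.le]
      field_simp
      ring
    · have h4 : ¬ Smooth p m := fun h => h3 (by rw [pol_eq]; exact h.2)
      rw [if_neg h4, if_neg h3]

/-- Let a base `b ≥ 2`, `δ > 0` and integers `A, B ≥ 0` be given. There are `c > 0` and `y₀` such that for all integers
`r l`, `K l` (`l = 0, ..., 4`), `y` with `2 r l ≤ K l` and `y ≥ y₀` the following holds.

Let `0 ≤ N l < b ^ K l` be arbitrary integers, prescribe for every position `j` a digit `f l j` different from the digit of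
`N l` in base `b`, and let for every `n` an arbitrary set `W n` of at most `n ^ B` weights `w : ℕ → [-1, 1]` be given (for instance
the indicator functions of intervals, residue classes or other sets of primes, or the values of characters). If one chooses `r l` of
the `K l` positions and replaces the digits of `N l` at these positions, then for all but at most a proportion `1 / y ^ A` of the
choices the Jacobian of the curve `Y ^ 2 = X ^ 5 + m 4 X ^ 4 + ... + m 0` of genus `2` with the numbers `m l` obtained has the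
following property: for all integers `n` with `y ≤ n ≤ exp (c r l)` for all `l`, all weights `w ∈ W n` and all pairs `(i, j)` with
`i + 2 j ≤ 5` or `i ≤ 7`, `j = 0` the sum `∑ w k a_1(p_k) ^ i a_2(p_k) ^ j` over the first `n` primes differs from `∑ w k` times the
mean of `a_1 ^ i a_2 ^ j` over `USp(4)` by at most `(max 1 (∑ w k ^ 2)) ^ (1 / 2) n ^ δ`. -/
theorem result (b : ℕ) (hb : 2 ≤ b) (δ : ℝ) (hδ : 0 < δ) (A B : ℕ) :
    ∃ c : ℝ, 0 < c ∧ ∃ y₀ : ℕ, ∀ (K r : Fin 5 → ℕ) (y : ℕ), (∀ l, 2 * r l ≤ K l) → y₀ ≤ y →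
    ∀ N : Fin 5 → ℕ, (∀ l, N l < b ^ K l) →
    ∀ f : Fin 5 → ℕ → ℕ, (∀ l j, f l j < b ∧ f l j ≠ digit b j (N l)) →
    ∀ W : ℕ → Set (ℕ → ℝ), (∀ n, (W n).Finite ∧ (W n).ncard ≤ n ^ B) → (∀ n, ∀ w ∈ W n, ∀ k, |w k| ≤ 1) →
      (exceptions b K r N f
        (fun m => ∀ n : ℕ, y ≤ n → (∀ l, (n : ℝ) ≤ Real.exp (c * r l)) → Moments δ (W n) n m) : ℝ) ≤
        1 / (y : ℝ) ^ A * ∏ l, ((K l).choose (r l) : ℝ) := by
  classical
  -- the constants of the local means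
  have hch : ∀ ij : ℕ × ℕ, ∃ C : ℝ, 0 ≤ C ∧ ((ij.1 + 2 * ij.2 ≤ 5 ∨ (ij.1 ≤ 7 ∧ ij.2 = 0)) → ∀ p : ℕ, p.Prime →
      |Pool.Agent.TH894.NE.mean 5 p (fun m => Pool.Agent.Y57.FD.HM.tr 2 p m ^ ij.1 * Pool.Agent.V11210.G2.A2 2 p m ^ ij.2) -
        moment ij.1 ij.2| ≤ C / p) := by
    intro ij
    by_cases hj : ij.1 + 2 * ij.2 ≤ 5 ∨ (ij.1 ≤ 7 ∧ ij.2 = 0)
    · obtain ⟨C, hC0, hC⟩ := Pool.Agent.V11210.G2.mean_joint 2 ij.1 ij.2 (cond_eq _ _ hj)
      refine ⟨C, hC0, fun _ p hp => ?_⟩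
      rw [moment_eq _ _ hj]
      exact hC p hp
    · exact ⟨0, le_rfl, fun h1 => absurd h1 hj⟩
  choose C hC0 hC using hch
  obtain ⟨I, hI⟩ : ∃ I : Finset (ℕ × ℕ), I = (range 8 ×ˢ range 3).filter (fun ij => ij.1 + 2 * ij.2 ≤ 5 ∨ (ij.1 ≤ 7 ∧ ij.2 = 0)) := ⟨_, rfl⟩
  have hIm : ∀ ij : ℕ × ℕ, ij ∈ I ↔ (ij.1 + 2 * ij.2 ≤ 5 ∨ (ij.1 ≤ 7 ∧ ij.2 = 0)) := by
    intro ij
    rw [hI, mem_filter, mem_product, mem_range, mem_range]
    constructor
    · exact fun h => h.2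
    · intro h
      refine ⟨⟨by omega, by omega⟩, h⟩
  have hIc : I.card ≤ 2 ^ 5 := by
    rw [hI]
    refine (card_filter_le _ _).trans ?_
    rw [card_product, card_range, card_range]
    norm_num
  obtain ⟨C', hC'⟩ : ∃ C' : ℝ, C' = ∑ j ∈ I, C j := ⟨_, rfl⟩
  have hC'0 : 0 ≤ C' := by
    rw [hC']
    exact sum_nonneg fun j _ => hC0 j
  obtain ⟨B', hB'⟩ : ∃ B' : ℝ, B' = 1 + ∑ ij ∈ I, ((4 : ℝ) ^ ij.1 * (10 : ℝ) ^ ij.2 + |moment ij.1 ij.2|) := ⟨_, rfl⟩
  have hB'1 : 1 ≤ B' := by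
    rw [hB']
    have : 0 ≤ ∑ ij ∈ I, ((4 : ℝ) ^ ij.1 * (10 : ℝ) ^ ij.2 + |moment ij.1 ij.2|) := sum_nonneg fun j _ => by positivity
    linarith
  obtain ⟨c, hc, y₁, h⟩ := Pool.Agent.Y57.FD.tuples0 b 5 1 hb (by omega) le_rfl δ hδ A (B + 5) B' C' hB'1 hC'0
  refine ⟨c, hc, y₁ + 2, fun K r y hrK hy N hN f hf W hW hW1 => ?_⟩
  rw [exc_eq]
  have hWf : ∀ n, (W n).Finite := fun n => (hW n).1
  refine h K r y hrK (by omega) N hN f hf
    ((ℕ → ℝ) × (ℕ × ℕ)) (fun n => (hWf n).toFinset ×ˢ I) ?_ (fun l => l.1) ?_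
    (fun l i p m => if l.2 ∈ I then Pool.Agent.Y57.FD.HM.tr 2 p m ^ l.2.1 * Pool.Agent.V11210.G2.A2 2 p m ^ l.2.2 -
      moment l.2.1 l.2.2 else 0)
    ?_ ?_ ?_ _ ?_
  · intro n hn
    rw [card_product, ← Set.ncard_eq_toFinset_card _ (hWf n), pow_add]
    apply Nat.mul_le_mul (hW n).2
    exact hIc.trans (Nat.pow_le_pow_left hn _)
  · intro n l hl k
    rw [mem_product, Set.Finite.mem_toFinset] at hl
    exact hW1 n l.1 hl.1 k
  · intro l i p hp m
    show (if l.2 ∈ I then Pool.Agent.Y57.FD.HM.tr 2 p m ^ l.2.1 * Pool.Agent.V11210.G2.A2 2 p m ^ l.2.2 -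
      moment l.2.1 l.2.2 else 0) =
      (if l.2 ∈ I then Pool.Agent.Y57.FD.HM.tr 2 p (fun j => m j % p) ^ l.2.1 * Pool.Agent.V11210.G2.A2 2 p (fun j => m j % p) ^ l.2.2 -
        moment l.2.1 l.2.2 else 0)
    rw [← Pool.Agent.Y57.FD.HM.tr_mod 2 p m, ← Pool.Agent.V11210.G2.A2_mod 2 p m]
  · intro l i p hp m
    show |(if l.2 ∈ I then Pool.Agent.Y57.FD.HM.tr 2 p m ^ l.2.1 * Pool.Agent.V11210.G2.A2 2 p m ^ l.2.2 -
      moment l.2.1 l.2.2 else 0)| ≤ B'
    split_ifs with h1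
    · have h2 : |Pool.Agent.Y57.FD.HM.tr 2 p m ^ l.2.1 * Pool.Agent.V11210.G2.A2 2 p m ^ l.2.2| ≤ (4 : ℝ) ^ l.2.1 * (10 : ℝ) ^ l.2.2 := by
        rw [abs_mul, abs_pow, abs_pow]
        have e1 := Pool.Agent.Y57.FD.HM.tr_le 2 p m
        have e2 := Pool.Agent.V11210.G2.A2_le 2 p m
        refine mul_le_mul (pow_le_pow_left₀ (abs_nonneg _) (e1.trans (by norm_num)) _)
          (pow_le_pow_left₀ (abs_nonneg _) (e2.trans (by norm_num)) _) (by positivity) (by positivity)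
      have h3 := abs_sub (Pool.Agent.Y57.FD.HM.tr 2 p m ^ l.2.1 * Pool.Agent.V11210.G2.A2 2 p m ^ l.2.2) (moment l.2.1 l.2.2)
      have h4 : (4 : ℝ) ^ l.2.1 * (10 : ℝ) ^ l.2.2 + |moment l.2.1 l.2.2| ≤
          ∑ ij ∈ I, ((4 : ℝ) ^ ij.1 * (10 : ℝ) ^ ij.2 + |moment ij.1 ij.2|) :=
        single_le_sum (f := fun ij : ℕ × ℕ => (4 : ℝ) ^ ij.1 * (10 : ℝ) ^ ij.2 + |moment ij.1 ij.2|) (fun j _ => by positivity) h1
      rw [hB']
      linarith
    · rw [abs_zero]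
      linarith
  · intro n l hl
    rw [mem_product] at hl
    refine ⟨0, fun p hp => ?_⟩
    have hj := (hIm _).1 hl.2
    have hp0 : (0 : ℝ) < p := by exact_mod_cast hp.pos
    have hp1 : (1 : ℝ) ≤ p := by exact_mod_cast hp.one_lt.le
    have h2 : (fun m : Fin 5 → ℕ => if l.2 ∈ I then
        Pool.Agent.Y57.FD.HM.tr 2 p m ^ l.2.1 * Pool.Agent.V11210.G2.A2 2 p m ^ l.2.2 - moment l.2.1 l.2.2 else 0) =
        fun m : Fin 5 → ℕ => (fun m => Pool.Agent.Y57.FD.HM.tr 2 p m ^ l.2.1 * Pool.Agent.V11210.G2.A2 2 p m ^ l.2.2) m +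
          (fun _ => - moment l.2.1 l.2.2) m := by
      funext m
      rw [if_pos hl.2]
      ring
    show |Pool.Agent.TH894.NE.mean 5 p (fun m : Fin 5 → ℕ => if l.2 ∈ I then
        Pool.Agent.Y57.FD.HM.tr 2 p m ^ l.2.1 * Pool.Agent.V11210.G2.A2 2 p m ^ l.2.2 - moment l.2.1 l.2.2 else 0)| ≤ _
    rw [h2, Pool.Agent.TH894.NE.mean_add, Pool.Agent.TH894.NE.mean_const 5 p hp.pos, ← sub_eq_add_neg]
    refine (hC l.2 hj p hp).trans ?_
    have h3 : C l.2 ≤ C' := by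
      rw [hC']
      exact single_le_sum (f := C) (fun j _ => hC0 j) hl.2
    have h4 : Real.sqrt p ≤ p := by
      rw [Real.sqrt_le_left hp0.le]
      nlinarith
    calc C l.2 / (p : ℝ) ≤ C' / p := div_le_div_of_nonneg_right h3 hp0.le
      _ ≤ C' / Real.sqrt p := div_le_div_of_nonneg_left hC'0 (Real.sqrt_pos.2 hp0) h4
  · intro m hm n hyn hnr w hw i j hij
    have hmem : (i, j) ∈ I := (hIm (i, j)).2 hij
    have h1 := hm n (by omega) (by omega) hnr (w, (i, j)) (by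
      rw [mem_product, Set.Finite.mem_toFinset]
      exact ⟨hw, hmem⟩)
    have h2 : ∑ k ∈ range n, w k * (a₁ (Nat.nth Nat.Prime k) m ^ i * a₂ (Nat.nth Nat.Prime k) m ^ j) - moment i j * ∑ k ∈ range n, w k =
        ∑ k ∈ range n, w k * ∏ e : Fin 1,
          (if (i, j) ∈ I then Pool.Agent.Y57.FD.HM.tr 2 (Pool.Agent.TH894.NF.pr (k + e)) m ^ i *
            Pool.Agent.V11210.G2.A2 2 (Pool.Agent.TH894.NF.pr (k + e)) m ^ j - moment i j else 0) := by
      rw [mul_sum, ← sum_sub_distrib]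
      refine sum_congr rfl fun k _ => ?_
      rw [Fin.prod_univ_one, if_pos hmem]
      have h3 : a₁ (Nat.nth Nat.Prime k) m = Pool.Agent.Y57.FD.HM.tr 2 (Pool.Agent.TH894.NF.pr (k + (0 : Fin 1))) m := by
        rw [a₁_eq _ (Nat.prime_nth_prime k)]
        rfl
      have h4 : a₂ (Nat.nth Nat.Prime k) m = Pool.Agent.V11210.G2.A2 2 (Pool.Agent.TH894.NF.pr (k + (0 : Fin 1))) m := by
        rw [a₂_eq _ (Nat.prime_nth_prime k)]
        rfl
      rw [h3, h4]
      ring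
    rw [h2]
    exact h1

end Pool.Agent.Results.MP_6dc561_nt.GenusTwoJointMoments
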