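import Pool.Agent.V1142.SC.Centre

/-!
# The Sato-Tate law from the law modulo the centre

`K` is a number field, `G` a Sato-Tate group over `K` (for the problem: `G = ST_A`), `x_v ∈ G` an element
of the class `s(v)` of the prime `v` of `K` (any element at the finitely many exceptional primes) and `Z` a
subgroup of the centre of `G`.  The law modulo `Z` is the statement of the Sato-Tate conjecture for the
images of the `x_v` in `G / Z`.  For example let `Z = {1, -1}` in `G = USp(4)`: then it is the law for the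
images in `SO(5)`, that is for the part of even weight of the tensor constructions.

The theorem says that the law modulo `Z` excludes all zeros and poles on the line `Re s = 1` of the
`L`-functions of all irreducible representations of `G` of dimension at least two, also of those that are
not trivial on `Z`, and that together with local meromorphic continuations to the points of the line it
implies the law for `G` itself, if it holds for the one-dimensional representations that are not
trivial on `Z` (Hecke characters in practice; there are none if `G` is connected and semisimple,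
for example `G = USp(4)`).
-/

set_option autoImplicit false

namespace Pool.Agent.Results.MP_6dc561_nt.ModuloCentre

open NumberField IsDedekindDomain Filter Topology MeasureTheory

section

variable {K : Type} [Field K] [NumberField K]

/-- The average of `φ` over the primes of `K` of norm at most `N`. -/
noncomputable def avg (φ : HeightOneSpectrum (𝓞 K) → ℂ) (N : ℕ) : ℂ :=
  (∑ᶠ w : {w : HeightOneSpectrum (𝓞 K) // Ideal.absNorm w.asIdeal ≤ N}, φ w.1) /
    (Nat.card {w : HeightOneSpectrum (𝓞 K) // Ideal.absNorm w.asIdeal ≤ N} : ℂ)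

variable {G : Type} [Group G] [TopologicalSpace G] [MeasurableSpace G]

/-- The classes of the `x v` in `G` are equidistributed for `μ`. -/
def Equidistributed (x : HeightOneSpectrum (𝓞 K) → G) (μ : Measure G) : Prop :=
  ∀ f : G → ℂ, Continuous f → (∀ g h, f (h * g * h⁻¹) = f g) →
    Tendsto (avg fun v => f (x v)) atTop (𝓝 (∫ g, f g ∂μ))

/-- The classes of the `x v` in `G / Z` are equidistributed for the image of `μ`: the averages of the
continuous class functions `f` with `f (g z) = f g` for `z ∈ Z` converge to their integrals. -/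
def EquidistributedModulo (x : HeightOneSpectrum (𝓞 K) → G) (μ : Measure G) (Z : Subgroup G) :
    Prop :=
  ∀ f : G → ℂ, Continuous f → (∀ g h, f (h * g * h⁻¹) = f g) → (∀ g, ∀ z ∈ Z, f (g * z) = f g) →
    Tendsto (avg fun v => f (x v)) atTop (𝓝 (∫ g, f g ∂μ))

end

section

variable {G : Type} [Group G] {n : ℕ}

/-- The character of `π`. -/
noncomputable def tr (π : G →* Matrix.unitaryGroup (Fin n) ℂ) (g : G) : ℂ :=
  (π g : Matrix (Fin n) (Fin n) ℂ).trace

/-- Only the scalars commute with all matrices `π g`. -/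
def Irred (π : G →* Matrix.unitaryGroup (Fin n) ℂ) : Prop :=
  ∀ A : Matrix (Fin n) (Fin n) ℂ, (∀ g, (π g : Matrix (Fin n) (Fin n) ℂ) * A = A * π g) →
    ∃ c : ℂ, A = c • (1 : Matrix (Fin n) (Fin n) ℂ)

variable {K : Type} [Field K] [NumberField K]

/-- The Euler product `L(π, s) = ∏_v det(1 - N(v)^{-s} π(x_v))⁻¹`. -/
noncomputable def LFun (π : G →* Matrix.unitaryGroup (Fin n) ℂ) (x : HeightOneSpectrum (𝓞 K) → G)
    (s : ℂ) : ℂ :=
  ∏' v : HeightOneSpectrum (𝓞 K), (Matrix.det (1 - ((Ideal.absNorm v.asIdeal : ℂ) ^ (-s)) •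
    (π (x v) : Matrix (Fin n) (Fin n) ℂ)))⁻¹

/-- `log |L(π, 1 + iτ + ε)| / log (1/ε)`. -/
noncomputable def size (π : G →* Matrix.unitaryGroup (Fin n) ℂ) (x : HeightOneSpectrum (𝓞 K) → G)
    (τ ε : ℝ) : ℝ :=
  Real.log ‖LFun π x (1 + τ * Complex.I + ε)‖ / Real.log (1 / ε)

/-- `Λ` is a meromorphic continuation of `L(π, s)` to a neighbourhood of `1 + iτ`. -/
def IsContinuation (π : G →* Matrix.unitaryGroup (Fin n) ℂ) (x : HeightOneSpectrum (𝓞 K) → G)
    (τ : ℝ) (Λ : ℂ → ℂ) : Prop :=
  MeromorphicAt Λ (1 + τ * Complex.I) ∧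
    ∀ᶠ s in 𝓝 ((1 : ℂ) + τ * Complex.I), (1 : ℝ) < s.re → Λ s = LFun π x s

end

section Bridge

open Pool.Agent.TH553.ST Pool.Agent.TH553.RS Pool.Agent.W540.BE Pool.Agent.V1142.SC

variable {K : Type} [Field K] [NumberField K]

theorem avg_eq (g : HeightOneSpectrum (𝓞 K) → ℂ) : avg g = mn g := by
  funext N
  have hs : ∀ v, v ∈ upto K N ↔ Ideal.absNorm v.asIdeal ≤ N := fun v => mem_upto
  let e : {v : HeightOneSpectrum (𝓞 K) // Ideal.absNorm v.asIdeal ≤ N} ≃ (upto K N) :=
    Equiv.subtypeEquivRight fun v => (hs v).symm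
  have hfin : Finite {v : HeightOneSpectrum (𝓞 K) // Ideal.absNorm v.asIdeal ≤ N} :=
    Finite.of_equiv _ e.symm
  unfold avg mn
  have h1 : (∑ᶠ v : {v : HeightOneSpectrum (𝓞 K) // Ideal.absNorm v.asIdeal ≤ N}, g v.1) =
      ∑ v ∈ upto K N, g v := by
    rw [← Finset.sum_coe_sort, ← finsum_eq_sum_of_fintype, ← finsum_comp_equiv e]
    rfl
  have h2 : Nat.card {v : HeightOneSpectrum (𝓞 K) // Ideal.absNorm v.asIdeal ≤ N} =
      (upto K N).card := by
    rw [Nat.card_congr e, Nat.card_eq_fintype_card, Fintype.card_coe]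
  rw [h1, h2, Complex.real_smul, div_eq_inv_mul]
  push_cast
  rfl

end Bridge

/-- **The Sato-Tate law from the law modulo the centre.**  Let `K` be a number field, `G` a compact group
with Haar probability measure `μ`, `Z` a subgroup of the centre of `G` and `x_v ∈ G` for the primes `v` of
`K`, such that the classes of the `x_v` are equidistributed in `G / Z`.

I.  Let `π` be a continuous irreducible unitary representation of `G` of dimension at least two.  Then for
all real `τ` there is `δ > 0` with `|log |L(π, 1 + iτ + ε)|| ≤ (1 - δ) log (1/ε)` for all small `ε > 0`,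
and every meromorphic continuation of `L(π, s)` to a neighbourhood of `1 + iτ` has neither a zero nor a
pole at `1 + iτ`.

II.  Suppose that for all such `π` that are not trivial on `Z` there are local meromorphic continuations at
all points of `Re s = 1`, and that the average of `χ(x_v)` is zero for all continuous one-dimensional
representations `χ` that are not trivial on `Z`.  Then the classes of the `x_v` are equidistributed
in `G`. -/
theorem result (K : Type) [Field K] [NumberField K]
    (G : Type) [Group G] [TopologicalSpace G] [IsTopologicalGroup G] [CompactSpace G] [T2Space G]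
    [MeasurableSpace G] [BorelSpace G] (μ : Measure G) [IsProbabilityMeasure μ] [μ.IsHaarMeasure]
    (x : HeightOneSpectrum (𝓞 K) → G) (Z : Subgroup G) (hZ : ∀ z ∈ Z, ∀ g, z * g = g * z)
    (hx : EquidistributedModulo x μ Z) :
    (∀ (n : ℕ) (π : G →* Matrix.unitaryGroup (Fin n) ℂ) (τ : ℝ), Continuous π → Irred π →
      2 ≤ n →
      (∀ᶠ ε : ℝ in 𝓝[>] 0, LFun π x (1 + τ * Complex.I + ε) ≠ 0) ∧
      (∃ δ : ℝ, 0 < δ ∧ ∀ᶠ ε : ℝ in 𝓝[>] 0, |size π x τ ε| ≤ 1 - δ) ∧
      ∀ Λ, IsContinuation π x τ Λ → meromorphicOrderAt Λ (1 + τ * Complex.I) = (0 : ℤ)) ∧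
    ((∀ (n : ℕ) (π : G →* Matrix.unitaryGroup (Fin n) ℂ) (τ : ℝ), Continuous π → Irred π →
      2 ≤ n → (∃ z ∈ Z, π z ≠ 1) → ∃ Λ, IsContinuation π x τ Λ) →
     (∀ χ : G →* Matrix.unitaryGroup (Fin 1) ℂ, Continuous χ → (∃ z ∈ Z, χ z ≠ 1) →
      Tendsto (avg fun v => tr χ (x v)) atTop (𝓝 0)) →
     Equidistributed x μ) := by
  have L : Pool.Agent.V1142.SC.LawZ x μ Z := by
    intro f h1 h2 h3
    have h4 := hx f h1 h2 h3
    rwa [avg_eq] at h4
  refine ⟨fun n π τ h1 h2 h3 => ?_, fun hM hH => ?_⟩
  · obtain ⟨k1, k2, k3⟩ := Pool.Agent.V1142.SC.centre_lt hZ L h1 h2 h3 τ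
    exact ⟨k1, k2, fun Λ hΛ => k3 Λ hΛ.1 hΛ.2⟩
  · intro f h1 h2
    rw [avg_eq]
    refine Pool.Agent.V1142.SC.centre_law hZ L (fun n π τ k1 k2 k3 k4 => ?_) (fun χ k1 k2 => ?_)
      h1 h2
    · obtain ⟨Λ, k5⟩ := hM n π τ k1 k2 k3 k4
      exact ⟨Λ, k5.1, k5.2⟩
    · have k3 := hH χ k1 k2
      rwa [avg_eq] at k3

end Pool.Agent.Results.MP_6dc561_nt.ModuloCentre
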