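import Pool.Agent.V1176.LN.Fun
import Pool.Agent.V1176.LN.Var

/-!
# The Sato-Tate law for ALL Jacobian surfaces in windows and in small residue classes, relative to their family

A polynomial `F` in `X` with coefficients in `ℤ[T]`, of degree 5 in `X`, monic, defines the curves
`C_n : y² = F(n, x)` of genus two. For a prime `p` the numbers `a₁`, `a₂` are the coefficients of the normalised
`L`-polynomial `1 + a₁ T + a₂ T² + a₁ T³ + T⁴` of the Jacobian of `C_n` at `p`. The continuous class functions on `USp(4)` are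
the continuous functions of `(a₁, a₂)` on a part of the box `[-4, 4] × [-6, 6]`.

Let `v_ν ≥ 1` be a sequence of exponent of convergence at most `τ`, `ϑ < 1` and `0 ≤ s < 1`. For all `α > 0` outside a set
of Hausdorff dimension at most `(s + τ) / (1 - ϑ)` the following holds for ALL `F`, ALL continuous functions `f`, ALL integers
`n` with `|n - α v_ν| ≤ v_ν ^ ϑ`, `ν` large, and all `x` between `n ^ (1 - s)` and `n ^ s`: the sum over the primes `p ≤ x` of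
`f(a₁, a₂)` for `C_n` is the sum of the means over the residue classes of `n` modulo `p`, up to `ε π(x)`. The same in small
residue classes modulo the powers of a prime.
-/

set_option autoImplicit false

namespace Pool.Agent.Results.MP_6dc561_nt.SurfacesInWindows

open Finset Polynomial

/-- The number of the points `(x, y)` of `y² = F(n, x)` over the field with `p ^ j` elements. -/
noncomputable def points (F : ℤ[X][X]) (n : ℤ) (p : ℕ) [Fact p.Prime] (j : ℕ) : ℕ :=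
  Nat.card {z : GaloisField p j × GaloisField p j //
    z.2 ^ 2 = F.eval₂ (Polynomial.eval₂RingHom (Int.castRingHom (GaloisField p j)) (n : GaloisField p j)) z.1}

/-- The normalised trace of the `j`-th power of the Frobenius on `H¹` of the curve (with one point at infinity). -/
noncomputable def trace (F : ℤ[X][X]) (n : ℤ) (p : ℕ) [Fact p.Prime] (j : ℕ) : ℝ :=
  ((p : ℝ) ^ j - points F n p j) / Real.sqrt ((p : ℝ) ^ j)

/-- The coefficients `a₁` and `a₂` of the normalised `L`-polynomial `1 + a₁ T + a₂ T² + a₁ T³ + T⁴`. -/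
noncomputable def coeffs (F : ℤ[X][X]) (n : ℤ) (p : ℕ) [Fact p.Prime] : ℝ × ℝ :=
  (-trace F n p 1, ((trace F n p 1) ^ 2 - trace F n p 2) / 2)

/-- The box `[-4, 4] × [-6, 6]` (which contains `(a₁, a₂)` at the primes of good reduction). -/
def Box : Set (ℝ × ℝ) := Set.Icc (-4) 4 ×ˢ Set.Icc (-6) 6

open Classical in
/-- `f(a₁, a₂)` if `p` is a prime and `(a₁, a₂)` is in the box, and `0` otherwise. -/
noncomputable def value (f : C(Box, ℝ)) (F : ℤ[X][X]) (n : ℤ) (p : ℕ) : ℝ :=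
  if h : ∃ _ : Fact p.Prime, coeffs F n p ∈ Box then f ⟨@coeffs F n p h.1, h.2⟩ else 0

/-- The law for `C_n` up to `x`: the sum over the primes `p ≤ x` of the values is the sum of the means over the residues
`r` modulo `p`, up to `ε π(x)`. -/
def Law (F : ℤ[X][X]) (f : C(Box, ℝ)) (ε : ℝ) (n : ℤ) (x : ℕ) : Prop :=
  |∑ p ∈ (range (x + 1)).filter Nat.Prime, value f F n p -
    ∑ p ∈ (range (x + 1)).filter Nat.Prime, (∑ r ∈ range p, value f F (r : ℤ) p) / p| ≤ ε * Nat.primeCounting x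

/-- the exponent of convergence of the sequence `v` is at most `τ` -/
def ExpLe (v : ℕ → ℝ) (τ : ℝ) : Prop := ∀ t : ℝ, τ < t → Summable (fun n : ℕ => (v n) ^ (-t))

/-- `P n x` holds for all large `ν`, ALL integers `n ≥ 1` with `|n - α v_ν| ≤ v_ν ^ ϑ` and ALL `x` between
`n ^ (1 - s)` and `n ^ s`. -/
def InWindows (v : ℕ → ℝ) (ϑ s α : ℝ) (P : ℤ → ℕ → Prop) : Prop :=
  ∃ ν₀ : ℕ, ∀ ν : ℕ, ν₀ ≤ ν → ∀ n : ℕ, 1 ≤ n → |(n : ℝ) - α * v ν| ≤ (v ν) ^ ϑ →
    ∀ x : ℕ, (n : ℝ) ^ (1 - s) ≤ x → (x : ℝ) ≤ (n : ℝ) ^ s → P n x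

/-- `P n x` holds for all large `Y`, ALL integers `1 ≤ n ≤ Y` with `|n - α|_q ≤ Y ^ (-σ)` and ALL `x` between
`n ^ (1 - s)` and `n ^ s`. -/
def InClasses (q : ℕ) [Fact q.Prime] (σ s : ℝ) (α : ℤ_[q]) (P : ℤ → ℕ → Prop) : Prop :=
  ∃ Y₀ : ℝ, ∀ Y : ℝ, Y₀ ≤ Y → ∀ n : ℕ, 1 ≤ n → (n : ℝ) ≤ Y → ‖(n : ℤ_[q]) - α‖ ≤ Y ^ (-σ) →
    ∀ x : ℕ, (n : ℝ) ^ (1 - s) ≤ x → (x : ℝ) ≤ (n : ℝ) ^ s → P n x

/-! ### The proof -/

instance : CompactSpace Box := isCompact_iff_compactSpace.1 (isCompact_Icc.prod isCompact_Icc)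

lemma coeffs_congr (F : ℤ[X][X]) {n n' : ℤ} (p : ℕ) [Fact p.Prime] (h : (n : ZMod p) = (n' : ZMod p)) :
    coeffs F n p = coeffs F n' p := by
  have h1 : ∀ j : ℕ, (n : GaloisField p j) = (n' : GaloisField p j) := by
    intro j
    have := congrArg (algebraMap (ZMod p) (GaloisField p j)) h
    simpa using this
  have h2 : ∀ j, points F n p j = points F n' p j := by
    intro j
    unfold points
    rw [h1 j]
  unfold coeffs trace
  rw [h2 1, h2 2]

open Classical in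
/-- the point of the box attached to `(F, n, p)` -/
noncomputable def pt (F : ℤ[X][X]) (n : ℤ) (p : ℕ) : Option Box :=
  if h : ∃ _ : Fact p.Prime, coeffs F n p ∈ Box then some ⟨@coeffs F n p h.1, h.2⟩ else none

lemma pt_congr (F : ℤ[X][X]) {n n' : ℤ} (p : ℕ) (hp : p.Prime) (h : (n : ZMod p) = (n' : ZMod p)) :
    pt F n p = pt F n' p := by
  have hF : Fact p.Prime := ⟨hp⟩
  have hc : coeffs F n p = coeffs F n' p := coeffs_congr F p h
  unfold pt
  by_cases h1 : ∃ _ : Fact p.Prime, coeffs F n p ∈ Box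
  · have h2 : ∃ _ : Fact p.Prime, coeffs F n' p ∈ Box := ⟨hF, hc ▸ h1.2⟩
    rw [dif_pos h1, dif_pos h2]
    exact congrArg some (Subtype.ext hc)
  · have h2 : ¬ ∃ _ : Fact p.Prime, coeffs F n' p ∈ Box := fun h2 => h1 ⟨hF, hc ▸ h2.2⟩
    rw [dif_neg h1, dif_neg h2]

lemma value_eq (f : C(Box, ℝ)) (e : ℕ → ℤ[X][X]) (i : ℕ) (n : ℤ) (p : ℕ) :
    Pool.Agent.V1176.LN.val (fun i => pt (e i)) i f n p = value f (e i) n p := by
  by_cases h : ∃ _ : Fact p.Prime, coeffs (e i) n p ∈ Box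
  · have h1 : pt (e i) n p = some ⟨@coeffs (e i) n p h.1, h.2⟩ := dif_pos h
    have h2 : value f (e i) n p = f ⟨@coeffs (e i) n p h.1, h.2⟩ := dif_pos h
    rw [h2]
    exact Pool.Agent.V1176.LN.val_some _ _ _ _ _ h1
  · have h1 : pt (e i) n p = none := dif_neg h
    have h2 : value f (e i) n p = 0 := dif_neg h
    rw [h2]
    exact Pool.Agent.V1176.LN.val_none _ _ _ _ _ h1

lemma law_of (f : C(Box, ℝ)) (e : ℕ → ℤ[X][X]) (i : ℕ) {ε : ℝ} {n : ℤ} {x : ℕ}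
    (h : |Pool.Agent.V1176.LN.dv (Pool.Agent.V1176.LN.val (fun i => pt (e i)) i f) n x| ≤
      ε * Nat.primeCounting x) : Law (e i) f ε n x := by
  unfold Pool.Agent.V1176.LN.dv at h
  rw [sum_sub_distrib] at h
  simp only [value_eq] at h
  exact h

lemma enum : ∃ e : ℕ → ℤ[X][X], Function.Surjective e := by
  have h1 : Countable ℤ[X] := Pool.Agent.V1176.LN.countable_poly
  have h2 : Countable ℤ[X][X] := by
    rw [← Cardinal.mk_le_aleph0_iff]
    exact Polynomial.cardinalMk_le_max.trans (max_le (Cardinal.mk_le_aleph0_iff.2 h1) le_rfl)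
  exact exists_surjective_nat _

/-- **The law for all Jacobian surfaces in windows and in small residue classes.** -/
theorem result :
    (∀ (v : ℕ → ℝ) (τ ϑ s : ℝ), (∀ ν, 1 ≤ v ν) → 0 ≤ τ → ExpLe v τ → ϑ < 1 → 0 ≤ s → s < 1 →
      ∃ E : Set ℝ, dimH E ≤ ENNReal.ofReal ((s + τ) / (1 - ϑ)) ∧ ∀ α : ℝ, 0 < α → α ∉ E →
        ∀ (F : ℤ[X][X]) (f : C(Box, ℝ)) (ε : ℝ), 0 < ε → InWindows v ϑ s α (Law F f ε)) ∧
    (∀ a : ℝ, 0 < a → ExpLe (fun n : ℕ => ((n : ℝ) + 1) ^ a) (1 / a)) ∧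
    (∀ b : ℝ, 1 < b → ExpLe (fun n : ℕ => b ^ n) 0) ∧
    (∀ (q : ℕ) [Fact q.Prime] (σ s : ℝ), 0 < σ → 0 ≤ s → s < 1 →
      ∃ E : Set ℤ_[q], dimH E ≤ ENNReal.ofReal (s / σ) ∧ ∀ α : ℤ_[q], α ∉ E →
        ∀ (F : ℤ[X][X]) (f : C(Box, ℝ)) (ε : ℝ), 0 < ε → InClasses q σ s α (Law F f ε)) := by
  obtain ⟨e, he⟩ := enum
  refine ⟨?_, fun κ hκ => Pool.Agent.Y854.GM.expLe_pow κ hκ,
    fun b hb => Pool.Agent.Y854.GM.expLe_geom b hb, ?_⟩
  · intro v τ ϑ s hv hτ hvτ hϑ hs0 hs1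
    obtain ⟨E, hE, h⟩ := Pool.Agent.V1176.LN.win_fun (K := Box) (fun i => pt (e i))
      (fun i n n' p hp hn => pt_congr (e i) p hp hn) hv hτ hvτ hs0 hs1 hϑ
    refine ⟨E, hE, fun α hα hαE F f ε hε => ?_⟩
    obtain ⟨i, rfl⟩ := he F
    obtain ⟨ν₀, h0⟩ := h α hα hαE i f ε hε
    exact ⟨ν₀, fun ν hν n hn hw x hx1 hx2 => law_of f e i (h0 ν hν n hn hw x hx1 hx2)⟩
  · intro q _ σ s hσ hs0 hs1
    obtain ⟨E, hE, h⟩ := Pool.Agent.V1176.LN.cls_fun (K := Box) q (fun i => pt (e i))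
      (fun i n n' p hp hn => pt_congr (e i) p hp hn) hs0 hs1 hσ
    refine ⟨E, hE, fun α hαE F f ε hε => ?_⟩
    obtain ⟨i, rfl⟩ := he F
    obtain ⟨Y₀, h0⟩ := h α hαE i f ε hε
    exact ⟨Y₀, fun Y hY n hn hnY hw x hx1 hx2 => law_of f e i (h0 Y hY n hn hnY hw x hx1 hx2)⟩

end Pool.Agent.Results.MP_6dc561_nt.SurfacesInWindows
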